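import Pool.Agent.Helper8.UL.Spec

/-! LIN: piecewise linear interpolation (MP_de303a_co, Q1). -/

set_option autoImplicit false

open Set

namespace Pool.Agent.Helper29.UL

open Pool.UL

/-- clamp to `[0, 1]` -/
noncomputable def clp (t : ℝ) : ℝ := max 0 (min t 1)

lemma clp_of_nonpos {t : ℝ} (h : t ≤ 0) : clp t = 0 := by
  unfold clp
  rw [min_eq_left (by linarith), max_eq_left h]

lemma clp_of_one_le {t : ℝ} (h : 1 ≤ t) : clp t = 1 := by
  unfold clp
  rw [min_eq_right h, max_eq_right zero_le_one]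

lemma clp_of_mem {t : ℝ} (h0 : 0 ≤ t) (h1 : t ≤ 1) : clp t = t := by
  unfold clp
  rw [min_eq_left h1, max_eq_right h0]

/-- piecewise linear interpolation -/
noncomputable def pl (c : ℕ → ℝ) (N : ℕ) (y : ℝ) : ℝ :=
  c 0 + ∑ r ∈ Finset.range N, (c (r + 1) - c r) * clp (y - r)

lemma pl_succ (c : ℕ → ℝ) (N : ℕ) (y : ℝ) :
    pl c (N + 1) y = pl c N y + (c (N + 1) - c N) * clp (y - N) := by
  unfold pl
  rw [Finset.sum_range_succ]
  ring

lemma pl_of_ge (c : ℕ → ℝ) (N : ℕ) (y : ℝ) (h : (N : ℝ) ≤ y) : pl c N y = c N := by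
  induction N with
  | zero => simp [pl]
  | succ N ih =>
    push_cast at h
    rw [pl_succ, ih (by linarith), clp_of_one_le (by linarith)]
    ring

lemma pl_of_le (c : ℕ → ℝ) (N k : ℕ) (y : ℝ) (h : y ≤ N) : pl c (N + k) y = pl c N y := by
  induction k with
  | zero => rfl
  | succ k ih =>
    rw [← add_assoc, pl_succ, ih, clp_of_nonpos]
    · ring
    · push_cast
      have : (0 : ℝ) ≤ k := Nat.cast_nonneg k
      linarith

lemma pl_eq (c : ℕ → ℝ) (N r : ℕ) (y : ℝ) (hr : r < N) (h0 : (r : ℝ) ≤ y) (h1 : y ≤ r + 1) :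
    pl c N y = c r + (c (r + 1) - c r) * (y - r) := by
  obtain ⟨k, rfl⟩ := Nat.exists_eq_add_of_lt hr
  have h2 : r + k + 1 = (r + 1) + k := by ring
  rw [h2, pl_of_le c (r + 1) k y (by push_cast; exact h1), pl_succ, pl_of_ge c r y h0,
    clp_of_mem (by linarith) (by linarith)]

lemma pl_nat (c : ℕ → ℝ) (N m : ℕ) (h : m ≤ N) : pl c N m = c m := by
  obtain ⟨k, rfl⟩ := Nat.exists_eq_add_of_le h
  rw [pl_of_le c m k m le_rfl, pl_of_ge c m m le_rfl]

lemma pl_cont (c : ℕ → ℝ) (N : ℕ) : Continuous (pl c N) := by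
  unfold pl clp
  fun_prop

theorem lin : S_LIN := by
  intro n E c₀ hE1 hE2 hRD
  obtain ⟨τ, c, cv, hτ, hc⟩ := hRD
  refine ⟨cv, fun i => (τ i : ℝ), fun i j => pl (c i j) (τ j), ?_, ?_⟩
  · intro i hi j hj hij
    exact hτ i hi j hj (Nat.cast_injective (R := ℝ) hij)
  · intro i j hij
    obtain ⟨h1, h2, h3, h4, h5, h6⟩ := hc i j hij
    refine ⟨Nat.cast_lt.2 h1, (pl_cont _ _).continuousOn, ?_, ?_, ?_, ?_⟩
    · show pl (c i j) (τ j) (τ i : ℝ) = cv i
      rw [pl_nat _ _ _ h1.le, h2]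
    · show pl (c i j) (τ j) (τ j : ℝ) = cv j
      rw [pl_nat _ _ _ le_rfl, h3]
    · intro w hw hwi hwj hmem
      have h7 : τ i ≤ τ w := (Nat.cast_le (α := ℝ)).1 hmem.1
      have h8 : τ w ≤ τ j := (Nat.cast_le (α := ℝ)).1 hmem.2
      show pl (c i j) (τ j) (τ w : ℝ) ≠ cv w
      rw [pl_nat _ _ _ h8]
      exact h4 w hw hwi hwj h7 h8
    · refine le_trans ?_ h6
      -- the key facts
      have key : ∀ q : (ℕ × ℕ) × ℝ, (E q.1.1 q.1.2 ∧ q.1 ≠ (i, j) ∧
          q.2 ∈ Icc (τ i : ℝ) (τ j : ℝ) ∧ q.2 ∈ Icc (τ q.1.1 : ℝ) (τ q.1.2 : ℝ) ∧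
          pl (c i j) (τ j) q.2 = pl (c q.1.1 q.1.2) (τ q.1.2) q.2 ∧
          ¬ ∃ w, (w = i ∨ w = j) ∧ (w = q.1.1 ∨ w = q.1.2) ∧ q.2 = (τ w : ℝ)) →
          (τ i ≤ ⌊q.2⌋₊ ∧ ⌊q.2⌋₊ + 1 ≤ τ j ∧ τ q.1.1 ≤ ⌊q.2⌋₊ ∧ ⌊q.2⌋₊ + 1 ≤ τ q.1.2) ∧
          (c i j ⌊q.2⌋₊ - c q.1.1 q.1.2 ⌊q.2⌋₊) *
            (c i j (⌊q.2⌋₊ + 1) - c q.1.1 q.1.2 (⌊q.2⌋₊ + 1)) < 0 ∧
          (c i j ⌊q.2⌋₊ - c q.1.1 q.1.2 ⌊q.2⌋₊) * (1 - (q.2 - ⌊q.2⌋₊)) +
            (c i j (⌊q.2⌋₊ + 1) - c q.1.1 q.1.2 (⌊q.2⌋₊ + 1)) * (q.2 - ⌊q.2⌋₊) = 0 := by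
        rintro ⟨⟨k, l⟩, y⟩ ⟨a1, a2, a3, a4, a5, a6⟩
        simp only at a1 a2 a3 a4 a5 a6 ⊢
        have hy0 : 0 ≤ y := le_trans (Nat.cast_nonneg _) a3.1
        set r := ⌊y⌋₊ with hr
        have hr0 : (r : ℝ) ≤ y := Nat.floor_le hy0
        have hr1 : y < r + 1 := Nat.lt_floor_add_one y
        have b1 : τ i ≤ r := Nat.le_floor a3.1
        have b2 : τ k ≤ r := Nat.le_floor a4.1
        have b3 : r ≤ τ j := by
          have := hr0.trans a3.2
          exact_mod_cast this
        have b4 : r ≤ τ l := by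
          have := hr0.trans a4.2
          exact_mod_cast this
        have hne : (r : ℝ) ≠ y := by
          intro h
          have e1 : pl (c i j) (τ j) y = c i j r := by rw [← h]; exact pl_nat _ _ _ b3
          have e2 : pl (c k l) (τ l) y = c k l r := by rw [← h]; exact pl_nat _ _ _ b4
          rw [e1, e2] at a5
          obtain ⟨w, w1, w2, w3⟩ := h5 k l a1 a2 r b1 b3 b2 b4 a5
          exact a6 ⟨w, w1, w2, by rw [← h, w3]⟩
        have hr2 : (r : ℝ) < y := lt_of_le_of_ne hr0 hne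
        have b5 : r + 1 ≤ τ j := by
          have := hr2.trans_le a3.2
          exact_mod_cast this
        have b6 : r + 1 ≤ τ l := by
          have := hr2.trans_le a4.2
          exact_mod_cast this
        have e1 := pl_eq (c i j) (τ j) r y b5 hr0 hr1.le
        have e2 := pl_eq (c k l) (τ l) r y b6 hr0 hr1.le
        have e3 : (c i j r - c k l r) * (1 - (y - r)) +
            (c i j (r + 1) - c k l (r + 1)) * (y - r) = 0 := by
          rw [e1, e2] at a5
          linear_combination a5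
        refine ⟨⟨b1, b5, b2, b6⟩, ?_, e3⟩
        have hs0 : 0 < y - r := by linarith
        have hs1 : 0 < 1 - (y - r) := by linarith
        by_cases hd : c i j r - c k l r = 0
        · exfalso
          rw [hd, zero_mul, zero_add] at e3
          have hd' : c i j (r + 1) - c k l (r + 1) = 0 := by
            rcases mul_eq_zero.1 e3 with h | h
            · exact h
            · exact absurd h hs0.ne'
          obtain ⟨w, w1, w2, w3⟩ := h5 k l a1 a2 r b1 b3 b2 b4 (by linarith)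
          obtain ⟨w', w1', w2', w3'⟩ := h5 k l a1 a2 (r + 1) (by omega) b5 (by omega) b6
            (by linarith)
          have hww : w ≠ w' := by
            rintro rfl
            omega
          have hE := hE2 i j hij
          have h7 : τ k < τ l := (hc k l a1).1
          have g1 : (k = i ∧ l = j) ∨ (k = j ∧ l = i) := by omega
          rcases g1 with ⟨g2, g3⟩ | ⟨g2, g3⟩
          · exact a2 (by rw [g2, g3])
          · rw [g2, g3] at a1
            exact hE a1
        · have e4 : (c i j (r + 1) - c k l (r + 1)) * (y - r) =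
              - ((c i j r - c k l r) * (1 - (y - r))) := by linarith
          have e5 : (c i j r - c k l r) * (c i j (r + 1) - c k l (r + 1)) * (y - r) < 0 := by
            have : (c i j r - c k l r) * (c i j (r + 1) - c k l (r + 1)) * (y - r) =
                - ((c i j r - c k l r) ^ 2 * (1 - (y - r))) := by
              linear_combination (c i j r - c k l r) * e4
            rw [this]
            have : 0 < (c i j r - c k l r) ^ 2 * (1 - (y - r)) := by positivity
            linarith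
          by_contra hcon
          push Not at hcon
          have := mul_nonneg hcon hs0.le
          linarith
      apply Set.encard_le_encard_of_injOn (f := fun q => (q.1, ⌊q.2⌋₊))
      · rintro q hq
        obtain ⟨⟨b1, b2, b3, b4⟩, b5, -⟩ := key q hq
        exact ⟨hq.1, hq.2.1, b1, b2, b3, b4, b5⟩
      · rintro q hq q' hq' heq
        obtain ⟨-, b5, b6⟩ := key q hq
        obtain ⟨-, -, b6'⟩ := key q' hq'
        have h7 : q.1 = q'.1 := (Prod.ext_iff.1 heq).1
        have h8 : ⌊q.2⌋₊ = ⌊q'.2⌋₊ := (Prod.ext_iff.1 heq).2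
        rw [← h7, ← h8] at b6'
        set d := c i j ⌊q.2⌋₊ - c q.1.1 q.1.2 ⌊q.2⌋₊
        set d' := c i j (⌊q.2⌋₊ + 1) - c q.1.1 q.1.2 (⌊q.2⌋₊ + 1)
        have h9 : (d' - d) * (q.2 - q'.2) = 0 := by linear_combination b6 - b6'
        have h10 : d' - d ≠ 0 := by
          intro h
          have : d' = d := by linarith
          rw [this] at b5
          nlinarith [mul_self_nonneg d]
        have h11 : q.2 = q'.2 := by
          rcases mul_eq_zero.1 h9 with h | h
          · exact absurd h h10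
          · linarith
        exact Prod.ext h7 h11

end Pool.Agent.Helper29.UL
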